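import Pool.Graph.R_pool_sql_team_seeded_2aa45f1a.Results.MP_a60482_ag.TrilinearForms
import Pool.Agent.Helper95.WC.Cov

/-!
# MP_a60482_ag: the Künneth standard conjecture and finite étale covers of affine spaces

`C` is the category of Chow motives with rational coefficients over the perfect field `k` of
characteristic `p > 0`, with a Weil cohomology `R`; `KunnethC R M` is the conjecture `C` for the motive
`M`; `W(X)` is the weight complex (with compact supports) of the scheme `X` of finite type over `k`.
`WeightC R D X` says that all twists of `W(X)` are direct summands, in the homotopy category, of complexes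
all of whose terms satisfy the conjecture `C`; for smooth projective `X` this is the conjecture `C` for
all twists of the motive of `X`.

`covS F` is the cover `F(x_1, …, x_m, t) = 0` of the affine space of dimension `m`; `IsCover F` says that
`F` is irreducible, monic in `t`, and has a constant discriminant: the cover is connected, finite and
étale. `asf p f` is the Artin–Schreier cover `t ^ p - t = x_0 f(x_1, …, x_m)` of the affine space of
dimension `m + 1`, and `asS p (tri t)` is the Artin–Schreier cover `t ^ p - t = ∑ t_ijl x_i y_j z_l`.
-/

set_option autoImplicit false

open CategoryTheory Limits AlgebraicGeometry Pool.Agent.Y116.UV Pool.Agent.Q282.UM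
  Pool.Agent.Q282.UK Pool.Agent.Helper95.WC
open Pool.Agent.Helper62.EC (covS IsCover asS)
open Pool.Agent.Results.MP_a60482_ag.TrilinearForms (Cohomology KunnethC)

namespace Pool.Agent.Results.MP_a60482_ag.EtaleCoversOfAffineSpace

universe v u

/-- The conjecture `C` for the weight complex of `X`: all twists of `W(X)` are direct summands, in the
homotopy category, of complexes all of whose terms satisfy the conjecture `C`. -/
def WeightC {C : Type u} [Category.{v} C] [Preadditive C] {K : Type} [Field K] (R : Cohomology C K)
    {k : Type} [Field k] (D : Weights k C) (X : Sch k) : Prop :=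
  AllTwists D (TermsIn (KunnethC R)) X

/-- **The Künneth standard conjecture and finite étale covers of affine spaces.** The conjecture `C` is
known in dimension at most two (`known`); `additive`: the weight complex of `X` is a direct summand of
the one of the disjoint union of `X` and `Y`.

1. For all `N`, the conjecture `C` is true for all smooth projective `X` of dimension at most `N` (and
  for the twists of their motives) if and only if it is true for the weight complexes of the
  connected finite étale covers of the affine space of dimension `N`.
2. The same for all dimensions.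
3. The conjecture `C` for the weight complex of the cover `t ^ p - t = x_0 f(x_1, …, x_m)` is equivalent
  to the one for the hypersurface `f = 0`.
4. For all `N`, the conjecture `C` is true for all smooth projective `X` of dimension at most `N` if and
  only if it is true for the weight complexes of the covers `t ^ p - t = x_0 f(x_1, …, x_(N + 1))`, and
  if and only if it is true for those of the covers `t ^ p - t = ∑ t_ijl x_i y_j z_l` with at most
  `N + 2` variables `z_l`.
5. It is true for the weight complexes of the connected finite étale covers of the affine plane, of the
  covers `t ^ p - t = x_0 f(x_1, x_2, x_3)` and of the covers `t ^ p - t = ∑ t_ijl x_i y_j z_l` with at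
  most four variables `z_l`. -/
theorem result {C : Type u} [Category.{v} C] [Preadditive C] [HasZeroObject C]
    [HasBinaryBiproducts C] [HasFiniteBiproducts C] {K : Type} [Field K] (R : Cohomology C K)
    (hR : R.H.Additive) (k : Type) [Field k] [PerfectField k] (p : ℕ) [Fact p.Prime] [CharP k p]
    (D : Weights k C) (hD : IsWeights D) (additive : IsAdditive D)
    (known : ForVarieties D (KunnethC R) 2) :
    (∀ N : ℕ, ForVarieties D (KunnethC R) N ↔
      ∀ F : Polynomial (MvPolynomial (Fin N) k), IsCover F → WeightC R D (covS F)) ∧
    (ForAllVarieties D (KunnethC R) ↔
      ∀ (N : ℕ) (F : Polynomial (MvPolynomial (Fin N) k)), IsCover F → WeightC R D (covS F)) ∧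
    (∀ (m : ℕ) (f : MvPolynomial (Fin m) k), WeightC R D (asf p f) ↔ WeightC R D (hyper f)) ∧
    (∀ N : ℕ, List.TFAE [ForVarieties D (KunnethC R) N,
      ∀ f : MvPolynomial (Fin (N + 1)) k, WeightC R D (asf p f),
      ∀ (a b c : ℕ) (t : Fin a → Fin b → Fin c → k), c ≤ N + 2 →
        WeightC R D (asS p (tri t))]) ∧
    ((∀ F : Polynomial (MvPolynomial (Fin 2) k), IsCover F → WeightC R D (covS F)) ∧
      (∀ f : MvPolynomial (Fin 3) k, WeightC R D (asf p f)) ∧
      ∀ (a b c : ℕ) (t : Fin a → Fin b → Fin c → k), c ≤ 4 → WeightC R D (asS p (tri t))) := by
  have h : IsExtension (KunnethC R) (TermsIn (KunnethC R)) :=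
    ext_terms (thick_all fun i => thick_span R.H hR (R.proj i))
  have h0 : ForVarieties D (KunnethC R) 0 := fun X hX hd n =>
    known X hX (hd.trans (by exact_mod_cast Nat.zero_le 2)) n
  have hp : p ≠ 0 := (Fact.out : p.Prime).ne_zero
  have has : ∀ N : ℕ, ForVarieties D (KunnethC R) N ↔
      ∀ f : MvPolynomial (Fin (N + 1)) k, WeightC R D (asf p f) := by
    intro N
    rw [varieties_hyper hD h h0]
    exact forall_congr' fun f => (as_hyper hD h p additive h0 f).symm
  refine ⟨fun N => varieties_cover hD h p hp N, all_covers hD h p hp,
    fun m f => as_hyper hD h p additive h0 f, fun N => ?_,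
    (varieties_cover hD h p hp 2).1 known, (has 2).1 known,
    (varieties_tri hD h p additive h0 2).1 known⟩
  tfae_have 1 ↔ 2 := has N
  tfae_have 1 ↔ 3 := varieties_tri hD h p additive h0 N
  tfae_finish

end Pool.Agent.Results.MP_a60482_ag.EtaleCoversOfAffineSpace
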