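import Pool.Agent.Helper24.SE.Thick

/-!
# The Künneth standard conjecture and exceptional sets with a power saving

Let `H` be a Weil cohomology theory on the smooth projective varieties over `ℚ̄`, with coefficients in the
field `K` of characteristic zero, and let `C` be the category of Chow motives over `ℚ̄` with coefficients in
`K`. The cohomology gives additive functors `H i` on `C`, `i ∈ ℤ`. We say that a motive `N` satisfies the
Künneth standard conjecture (`Kunneth N`), if for all `i` there is an endomorphism `π_i` of `N` which is the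
identity on `H i N` and zero on `H j N`, `j ≠ i`. For the motive `mot V` of a smooth projective variety `V` over
`ℚ̄` this is the conjecture `C(V)`: the endomorphisms of `mot V` are the `K`-linear combinations of cycles on
`V × V` of codimension `dim V`, and the class of `π_i` is the Künneth component of the diagonal. We
write `h(X)` for the motive of `X ⊗ ℚ̄` if `X` is a smooth projective scheme over `ℚ`. If `V` is a smooth
projective variety over `ℚ̄`, then `V` is a connected component of `X ⊗ ℚ̄` for a smooth projective scheme `X`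
over `ℚ` of the same dimension.

For a separated scheme `X` of finite type over `ℚ` let `W(X)` be the weight complex of `X ⊗ ℚ̄` with compact
supports (Gillet, Soulé), a bounded complex in `C`, well defined up to homotopy. For `F ∈ ℤ[x_1, …, x_r]` let
`D(F)` be the complement of the (singular, reducible) hypersurface `F = 0` in the affine space over `ℚ`. We
call `F` an exception if it is false that, in the homotopy category, `W(D(F))` is a direct summand of a
complex of motives which satisfy the Künneth standard conjecture. Let `Box(D, B)` be the finite set of the `F` of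
degree at most `D` in each variable, for which the sum of the absolute values of the coefficients is at most
`B`, and `Exc(D, B)` the set of the exceptions in the box.

**Theorem.** (1) `C(V)` is true for all smooth projective varieties `V` over `ℚ̄` of dimension at most `d` if
and only if the exceptional sets in `d + 1` variables have a power saving: for some `ε > 0` there are infinitely
many `D` and for these infinitely many `B` such that `#Exc(D, B) ≤ #Box(D, B) ^ (1 - ε)`.

(2) `C(V)` is true for all smooth projective varieties `V` over `ℚ̄` if and only if the exceptional sets in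
`r` variables have a power saving, for infinitely many `r`.

(3) A zero–one law: if there is one exception in `r` variables, then for every `ε > 0`, for all large
`D` and all large `B` (depending on `D`) there are more than `#Box(D, B) ^ (1 - ε)` exceptions.

(4) If the hypersurfaces `F = 0` and `G = 0` in the affine space over `ℚ` are disjoint and `F` is an exception, then `G` or `F G` is an
exception.
-/

set_option autoImplicit false
set_option linter.checkUnivs false
set_option linter.unusedSectionVars false

open CategoryTheory Limits AlgebraicGeometry Filter Pool.Agent.Y116.UV Pool.Agent.Q282.UM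
  Pool.Agent.Q282.UK Pool.Agent.Helper62.EC Pool.Agent.Helper24.KD

open Pool.Agent.Helper24.KZ (SumOf)

open Pool.Agent.Helper24.SE (Box Exc Saving)

universe v u

namespace Pool.Agent.Results.MP_a60482_ag.PowerSaving

/-- The complement `D(F) : F ≠ 0` in the affine space over `ℚ`. -/
noncomputable def princ {r : ℕ} (F : MvPolynomial (Fin r) ℤ) : Sch ℚ :=
  aff ℚ (Localization.Away (MvPolynomial.map (algebraMap ℤ ℚ) F))

/-- The category `C` of Chow motives over `ℚ̄` with coefficients in `K`, with

* the motives `h(X)`, the Tate twists `N(n)` and the weight complexes `W(X)` of the schemes `X` over `ℚ`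
  (`Weights`);
* the cohomology `H`;
* the smooth projective varieties `V : Var` over `ℚ̄`, their dimensions and motives. -/
structure Mot (K : Type) [Field K] where
  C : Type u
  [cat : Category.{v} C]
  [pre : Preadditive C]
  [zero : HasZeroObject C]
  [bin : HasBinaryBiproducts C]
  [fin : HasFiniteBiproducts C]
  D : Weights ℚ C
  H : ℤ → C ⥤ ModuleCat.{0} K
  [additive : ∀ i, (H i).Additive]
  Var : Type
  dim : Var → ℕ
  mot : Var → C

attribute [instance] Mot.cat Mot.pre Mot.zero Mot.bin Mot.fin Mot.additive

variable {K : Type} [Field K] (M : Mot.{v, u} K)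

/-- The motive `N` satisfies the Künneth standard conjecture. -/
def Kunneth (N : M.C) : Prop :=
  ∀ i : ℤ, ∃ π : N ⟶ N, (M.H i).map π = 𝟙 _ ∧ ∀ j : ℤ, j ≠ i → (M.H j).map π = 0

/-- The known properties.

* `weight`: the weight complexes;
* `twist`: `H^i(N(n)) = H^{i+2n}(N)(n)`;
* `points`: `H^i(X) = 0` for `i ≠ 0` in dimension zero;
* `model`: every `V` is a component of `X ⊗ ℚ̄` for a smooth projective `X` over `ℚ` with `dim X = dim V`;
* `fibre`: if `X` is smooth and projective over `ℚ`, then `X ⊗ ℚ̄` is a finite disjoint union of smooth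
  projective varieties of dimension at most `dim X`. -/
structure Known : Prop where
  weight : IsWeightComplex M.D
  twist : ∀ n i : ℤ, Nonempty (M.D.tw n ⋙ M.H i ≅ M.H (i + 2 * n))
  points : ∀ X : Sch ℚ, IsSmoothProjective X → topologicalKrullDim X.left ≤ (0 : ℕ) →
    ∀ i : ℤ, i ≠ 0 → IsZero ((M.H i).obj (M.D.h X))
  model : ∀ V : M.Var, ∃ X : Sch ℚ, IsSmoothProjective X ∧
    topologicalKrullDim X.left ≤ M.dim V ∧ IsSummand (M.mot V) (M.D.h X)
  fibre : ∀ (X : Sch ℚ) (d : ℕ), IsSmoothProjective X → topologicalKrullDim X.left ≤ d →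
    SumOf (fun N => ∃ V : M.Var, M.dim V ≤ d ∧ Nonempty (M.mot V ≅ N)) (M.D.h X)

/-- `F` is an exception: it is false that `W(D(F))` is, up to homotopy, a direct summand of a complex of
motives which satisfy the Künneth standard conjecture. -/
def Exception {r : ℕ} (F : MvPolynomial (Fin r) ℤ) : Prop :=
  ¬ TermsIn (Kunneth M) (M.D.W (princ F))

section

variable {M}

lemma thick : IsThick (Kunneth M) where
  summand := by
    rintro N N' ⟨s, r, e⟩ h i
    obtain ⟨π, h1, h2⟩ := h i
    refine ⟨s ≫ π ≫ r, ?_, fun j hj => ?_⟩
    · rw [Functor.map_comp, Functor.map_comp, h1, Category.id_comp, ← Functor.map_comp, e,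
        CategoryTheory.Functor.map_id]
    · rw [Functor.map_comp, Functor.map_comp, h2 j hj, zero_comp, comp_zero]
  zero N h i := ⟨0, ((M.H i).map_isZero h).eq_of_src _ _, fun j _ => Functor.map_zero _ _ _⟩
  sum N N' h h' i := by
    obtain ⟨π, h1, h2⟩ := h i
    obtain ⟨π', h1', h2'⟩ := h' i
    refine ⟨biprod.fst ≫ π ≫ biprod.inl + biprod.snd ≫ π' ≫ biprod.inr, ?_, fun j hj => ?_⟩
    · rw [Functor.map_add, Functor.map_comp, Functor.map_comp, Functor.map_comp, Functor.map_comp,
        h1, h1', Category.id_comp, Category.id_comp, ← Functor.map_comp, ← Functor.map_comp,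
        ← Functor.map_add, biprod.total, CategoryTheory.Functor.map_id]
    · rw [Functor.map_add, Functor.map_comp, Functor.map_comp, Functor.map_comp, Functor.map_comp,
        h2 j hj, h2' j hj, zero_comp, zero_comp, comp_zero, comp_zero, add_zero]

lemma kunneth_twist (hM : Known M) (n : ℤ) {N : M.C} (h : Kunneth M N) :
    Kunneth M ((M.D.tw n).obj N) := by
  intro i
  obtain ⟨π, h1, h2⟩ := h (i + 2 * n)
  have key : ∀ j : ℤ, ∃ e : (M.H j).obj ((M.D.tw n).obj N) ≅ (M.H (j + 2 * n)).obj N,
      (M.H j).map ((M.D.tw n).map π) = e.hom ≫ (M.H (j + 2 * n)).map π ≫ e.inv := by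
    intro j
    obtain ⟨e⟩ := hM.twist n j
    refine ⟨e.app N, ?_⟩
    have h3 := e.hom.naturality π
    change (M.H j).map ((M.D.tw n).map π) ≫ e.hom.app N = e.hom.app N ≫ _ at h3
    rw [Iso.app_hom, Iso.app_inv, ← Category.assoc, ← h3, Category.assoc,
      Iso.hom_inv_id_app]
    exact (Category.comp_id _).symm
  refine ⟨(M.D.tw n).map π, ?_, fun j hj => ?_⟩
  · obtain ⟨e, he⟩ := key i
    rw [he, h1, Category.id_comp, Iso.hom_inv_id]
  · obtain ⟨e, he⟩ := key j
    rw [he, h2 (j + 2 * n) (by omega), zero_comp, comp_zero]

lemma kunneth_points (hM : Known M) (n : ℤ) (Y : Sch ℚ) (hY : IsSmoothProjective Y)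
    (hd : topologicalKrullDim Y.left ≤ (0 : ℕ)) : Kunneth M ((M.D.tw n).obj (M.D.h Y)) := by
  refine kunneth_twist hM n fun i => ?_
  by_cases hi : i = 0
  · refine ⟨𝟙 _, CategoryTheory.Functor.map_id _ _, fun j hj => ?_⟩
    exact (hM.points Y hY hd j (fun h => hj (h.trans hi.symm))).eq_of_src _ _
  · exact ⟨0, (hM.points Y hY hd i hi).eq_of_src _ _, fun j _ => Functor.map_zero _ _ _⟩

lemma dim_iff (hM : Known M) (d : ℕ) : (∀ V : M.Var, M.dim V ≤ d → Kunneth M (M.mot V)) ↔
    ∀ Y : Sch ℚ, IsSmoothProjective Y → topologicalKrullDim Y.left ≤ d →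
      Kunneth M (M.D.h Y) := by
  constructor
  · intro h Y hY hd
    refine Pool.Agent.Helper24.SE.sumOf_twist thick (𝟭 M.C) ?_ (hM.fibre Y d hY hd)
    rintro N ⟨V, hV, ⟨e⟩⟩
    exact thick.summand (IsSummand.of_iso e.symm) (h V hV)
  · intro h V hV
    obtain ⟨X, h1, h2, h3⟩ := hM.model V
    exact thick.summand h3 (h X h1 (h2.trans (by exact_mod_cast hV)))

end

/-- **The Künneth standard conjecture and exceptional sets with a power saving.** See the explanations
above. -/
theorem result {K : Type} [Field K] [CharZero K] (M : Mot.{v, u} K) (hM : Known M) :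
    -- (1) dimension at most `d`
    (∀ d : ℕ, (∀ V : M.Var, M.dim V ≤ d → Kunneth M (M.mot V)) ↔
      Saving (r := d + 1) (Exception M)) ∧
    -- (2) all dimensions
    ((∀ V : M.Var, Kunneth M (M.mot V)) ↔ ∃ᶠ r : ℕ in atTop, Saving (r := r) (Exception M)) ∧
    -- (3) the zero-one law
    (∀ (r : ℕ) (G : MvPolynomial (Fin r) ℤ), Exception M G → ∀ ε : ℝ, 0 < ε →
      ∀ᶠ D : ℕ in atTop, ∀ᶠ B : ℕ in atTop,
        ((Box r D B).ncard : ℝ) ^ (1 - ε) < ((Exc (r := r) (Exception M) D B).ncard : ℝ)) ∧
    -- (4) disjoint hypersurfaces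
    ∀ (r : ℕ) (F G : MvPolynomial (Fin r) ℤ),
      Ideal.span {MvPolynomial.map (algebraMap ℤ ℚ) G} ⊔
        Ideal.span {MvPolynomial.map (algebraMap ℤ ℚ) F} = ⊤ →
      Exception M F → Exception M G ∨ Exception M (F * G) := by
  have ht := kunneth_points hM
  have h1 : ∀ d : ℕ, (∀ V : M.Var, M.dim V ≤ d → Kunneth M (M.mot V)) ↔
      Saving (r := d + 1) (Exception M) := fun d =>
    (dim_iff hM d).trans (Pool.Agent.Helper24.SE.thick_dim thick hM.weight ht d)
  refine ⟨h1, ?_, fun r G hG ε hε => ?_, fun r F G hFG hF => ?_⟩
  · constructor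
    · exact fun h => frequently_atTop.mpr fun a => ⟨a + 1, by omega, (h1 a).mp fun V _ => h V⟩
    · intro h V
      obtain ⟨r, hr, hrV⟩ := (h.and_eventually (eventually_ge_atTop (M.dim V + 1))).exists
      obtain ⟨d, rfl⟩ : ∃ d, r = d + 1 := ⟨r - 1, by omega⟩
      exact (h1 d).mpr hr V (by omega)
  · exact Pool.Agent.Helper24.SE.thick_full thick hM.weight ht hG hε
  · refine Pool.Agent.Helper24.SE.disj_compl (Pool.Agent.Helper24.SE.cls_tw thick hM.weight)
      (Pool.Agent.Helper24.SE.tw_space thick hM.weight ht r) (MvPolynomial.map (algebraMap ℤ ℚ) F)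
      (MvPolynomial.map (algebraMap ℤ ℚ) G) hFG hF |>.imp id fun h => ?_
    have h1 : princ (F * G) = aff ℚ (Localization.Away
        (MvPolynomial.map (algebraMap ℤ ℚ) F * MvPolynomial.map (algebraMap ℤ ℚ) G)) := by
      unfold princ
      rw [map_mul]
    unfold Exception
    rw [h1]
    exact h

end Pool.Agent.Results.MP_a60482_ag.PowerSaving
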