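import Pool.Agent.Helper96.SP.Main4
import Pool.Agent.Helper96.SP.GDefs

/-!
# The Künneth standard conjecture descends from Schur powers

`𝒜` is a `ℚ`-linear symmetric monoidal category with duals and `F` is a realisation: a symmetric
monoidal functor to finite-dimensional super vector spaces over a field `K` of characteristic zero
(`SuperRealisation`). A `CohomologyGrading` is a decomposition `F X = ⊕ H^k (X)` for all objects
`X`, compatible with morphisms and exterior products and with the parity. The example is the
category of motives over a field (for rational or homological equivalence, with rational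
coefficients), with a Weil cohomology with coefficients in `K`.

`StandardC L G M`: the projections of `F M` onto the groups `H^k (M)` are algebraic with
coefficients in the subfield `L` of `K`, that is, `L`-linear combinations of operators given by
endomorphisms of `M`. For the motive of a smooth projective variety `Y` this is the standard
conjecture `C (Y)`; for `L = K` with the convention of the problem (algebraic means in the `K`-span
of the classes of cycles), for `L = ℚ` in the stronger form of Kleiman.

`T M n` is the `n`-th tensor power of `M`. `SchurPart M n D`: `D` is a direct summand of `T M n`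
which is cut out by an idempotent of the algebra generated by the transpositions of neighbouring
factors, i.e. of the image of the group algebra of the symmetric group; for instance `D` is the
Schur power `S_λ (M)` for a partition `λ` of `n`.

Theorem. Let `M` be any object, `D` such a summand of `T M n`, `n ≥ 1`, and `X` any object, with
`H (D ⊗ X) ≠ 0`. Suppose that the cohomology of `M` has an even and an odd part, or that the
cohomology of `D` is not concentrated in one degree. If `D ⊗ X` satisfies the Künneth standard
conjecture, then `M` does.

Proof. (1) `D` satisfies the conjecture. Let `e` be the idempotent of `D`, and `Θ` the operator on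
`T M n` which is `2 ^ k` times the parity on the part of degree `k` of the image of `e`, composed
with `e`; it is algebraic. Contract the sum of the conjugates of `e* Θ` along `n - 1` factors. The
result is an algebraic operator `U` of `H (M)`.

(2) Take a basis of homogeneous elements `b i` of `H (M)`, of degree `g i`, and the basis of words
`w` of the cohomology of `T M n`. `U` is diagonal, and its eigenvalue at `b i` is the parity times a
positive multiple of the sum over the words `w` of `2 ^ (degree of w) * q w * (number of letters i
in w)`, where `q w` is the norm of `e w` for a symmetric, positive definite form over `ℚ` in the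
basis of words; `q w` does not change if two letters of the same parity are interchanged in `w`.

(3) If `g i < g j`, for `i` and `j` of the same parity, then the eigenvalue at `b j` is bigger in
absolute value than the one at `b i`: interchange the letters `i` and `j` and compare; the
inequality is strict because some word `w` with `e w ≠ 0` has different numbers of letters `i` and
`j`. For this one uses the odd derivations of the super vector space `H (M)` if both parities occur,
and the hypothesis that the cohomology of `D` is not in one degree if not.

(4) So the eigenvalues of `U` at elements of different degrees are different rational numbers, and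
the projections are polynomials in `U`.
-/

open CategoryTheory MonoidalCategory Limits BraidedCategory

universe u v w

namespace Pool.Agent.Results.MP_a60482_ag.SchurPowers

open Pool.Agent.TH90.AB Pool.Agent.TH90.Kim Pool.Agent.Helper96.SP

/-- `D` is the direct summand of the tensor power `T M n` cut out by an idempotent of the
`ℚ`-algebra generated by the transpositions of neighbouring factors. -/
def SchurPart {𝒜 : Type u} [Category.{v} 𝒜] [MonoidalCategory 𝒜] [SymmetricCategory 𝒜]
    [Preadditive 𝒜] [Linear ℚ 𝒜] (M : 𝒜) (n : ℕ) (D : 𝒜) : Prop :=
  ∃ (i : D ⟶ T M n) (r : T M n ⟶ D), i ≫ r = 𝟙 D ∧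
    (show End (T M n) from r ≫ i) ∈ Algebra.adjoin ℚ {s : End (T M n) | Adj M n s}

/-- If `D ⊗ X` satisfies the Künneth standard conjecture and has non-zero cohomology, where `D` is a
Schur power of `M`, then `M` satisfies it; provided that the cohomology of `D` is not in one degree
or the cohomology of `M` has both parities. -/
theorem result {𝒜 : Type u} [Category.{v} 𝒜] [MonoidalCategory 𝒜] [SymmetricCategory 𝒜]
    [Preadditive 𝒜] [MonoidalPreadditive 𝒜] [Linear ℚ 𝒜] [MonoidalLinear ℚ 𝒜]
    [∀ X : 𝒜, HasRightDual X] {K : Type w} [Field K] [CharZero K] (F : SuperRealisation 𝒜 K)
    (G : CohomologyGrading F.toRealData) (L : Subfield K) {M D X : 𝒜} {n : ℕ} (hn : 1 ≤ n)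
    (hD : SchurPart M n D) (h0 : ∃ x : F.V (D ⊗ X), x ≠ 0)
    (h2 : (¬ ∃ k : ℤ, ∀ x, x ∈ G.gr D k) ∨
      ((∃ k, Even k ∧ G.gr M k ≠ ⊥) ∧ ∃ k, Odd k ∧ G.gr M k ≠ ⊥))
    (h : StandardC L G (D ⊗ X)) : StandardC L G M := by
  obtain ⟨n, rfl⟩ : ∃ k, n = k + 1 := ⟨n - 1, by omega⟩
  obtain ⟨i, r, hir, hperm⟩ := hD
  obtain ⟨z, hz⟩ := h0
  obtain ⟨hD0, hX0⟩ := M4.factors_ne (F := F.toReal) z hz
  rw [standardC_iff] at h ⊢
  refine M4.main4 L G.toGrading i r hir hperm hD0 ?_ hX0 h
  rcases h2 with h2 | ⟨⟨k, hk, hk'⟩, ⟨l, hl, hl'⟩⟩
  · exact Or.inl h2
  · right
    obtain ⟨x, hx, hx0⟩ := Submodule.exists_mem_ne_zero_of_ne_bot hk'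
    obtain ⟨y, hy, hy0⟩ := Submodule.exists_mem_ne_zero_of_ne_bot hl'
    exact ⟨⟨x, hx0, G.parity.even M k x hk hx⟩, ⟨y, hy0, G.parity.odd M l y hl hy⟩⟩

end Pool.Agent.Results.MP_a60482_ag.SchurPowers
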