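import Pool.Graph.R_pool_sql_team_seeded_2aa45f1a.Results.MP_a60482_ag.TrilinearForms
import Pool.Agent.Helper95.WC.Main

/-!
# MP_a60482_ag: the Künneth standard conjecture and unions of two affine spaces

`C` is the category of Chow motives with rational coefficients over the perfect field `k`, with a Weil
cohomology `R`; `KunnethC R M` is the conjecture `C` for the motive `M`; `W(X)` is the weight complex
(with compact supports) of the scheme `X` of finite type over `k`. `WeightC R D X` says that all twists of
`W(X)` are direct summands, in the homotopy category, of complexes all of whose terms satisfy the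
conjecture `C`; for smooth projective `X` this is the conjecture `C` for all twists of the motive of `X`.

For a polynomial `f` in `N` variables, `hyper f` is the hypersurface `f = 0`, which can be singular,
reducible or non-reduced, and `dbl f` is the hypersurface `t ^ 2 - t = y f(x)` in the affine space of
dimension `N + 2`. It is smooth, and the union of two open subschemes which are isomorphic to the affine
space of dimension `N + 1`.
-/

set_option autoImplicit false

open CategoryTheory Limits AlgebraicGeometry Pool.Agent.Y116.UV Pool.Agent.Q282.UM
  Pool.Agent.Q282.UK Pool.Agent.Helper95.WC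
open Pool.Agent.Results.MP_a60482_ag.TrilinearForms (Cohomology KunnethC)

namespace Pool.Agent.Results.MP_a60482_ag.UnionsOfTwoAffineSpaces

universe v u

/-- The conjecture `C` for the weight complex of `X`: all twists of `W(X)` are direct summands, in the
homotopy category, of complexes all of whose terms satisfy the conjecture `C`. -/
def WeightC {C : Type u} [Category.{v} C] [Preadditive C] {K : Type} [Field K] (R : Cohomology C K)
    {k : Type} [Field k] (D : Weights k C) (X : Sch k) : Prop :=
  AllTwists D (TermsIn (KunnethC R)) X

/-- `X` is a smooth affine scheme of finite type, and the union of two open subschemes which are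
isomorphic to the affine space of dimension `N`. -/
structure IsTwoSpaces {k : Type} [Field k] (N : ℕ) (X : Sch k) : Prop where
  ft : FT True X
  affine : IsAffine X.left
  smooth : Smooth X.hom
  glued : ∃ j₁ j₂ : aff k (MvPolynomial (Fin N) k) ⟶ X, IsOpenImmersion j₁.left ∧
    IsOpenImmersion j₂.left ∧ Set.range j₁.left ∪ Set.range j₂.left = Set.univ

lemma two_spaces {k : Type} [Field k] {N : ℕ} (f : MvPolynomial (Fin N) k) :
    IsTwoSpaces (N + 1) (dbl f) where
  ft := ft_aff True
  affine := (inferInstance : IsAffine (Spec (CommRingCat.of (Pool.Agent.Helper62.DB.Db f))))
  smooth := Pool.Agent.Helper62.DB.smooth0 f (addOne k N)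
  glued := Pool.Agent.Helper62.DB.two_spaces0 f (addOne k N)

/-- **The Künneth standard conjecture and unions of two affine spaces.** The conjecture `C` is known in
dimension at most two (`known`).

1. The scheme `t ^ 2 - t = y f(x)` is smooth, affine and the union of two open affine spaces.
2. The conjecture `C` for its weight complex is equivalent to the one for the hypersurface `f = 0`.
3. For all `N`, the conjecture `C` is true for all smooth projective `X` of dimension at most `N` (and
  for the twists of their motives) if and only if it is true for the weight complexes of the schemes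
  `t ^ 2 - t = y f(x)`, `f` in `N + 1` variables.
4. The same for all dimensions.
5. It is true for the weight complexes of the schemes `t ^ 2 - t = y f(x)`, `f` in three variables. -/
theorem result {C : Type u} [Category.{v} C] [Preadditive C] [HasZeroObject C]
    [HasBinaryBiproducts C] [HasFiniteBiproducts C] {K : Type} [Field K] (R : Cohomology C K)
    (hR : R.H.Additive) (k : Type) [Field k] [PerfectField k] (D : Weights k C)
    (hD : IsWeights D) (known : ForVarieties D (KunnethC R) 2) :
    (∀ (N : ℕ) (f : MvPolynomial (Fin N) k), IsTwoSpaces (N + 1) (dbl f)) ∧
    (∀ (N : ℕ) (f : MvPolynomial (Fin N) k), WeightC R D (dbl f) ↔ WeightC R D (hyper f)) ∧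
    (∀ N : ℕ, ForVarieties D (KunnethC R) N ↔
      ∀ f : MvPolynomial (Fin (N + 1)) k, WeightC R D (dbl f)) ∧
    (ForAllVarieties D (KunnethC R) ↔
      ∀ (N : ℕ) (f : MvPolynomial (Fin N) k), WeightC R D (dbl f)) ∧
    (∀ f : MvPolynomial (Fin 3) k, WeightC R D (dbl f)) := by
  have h : IsExtension (KunnethC R) (TermsIn (KunnethC R)) :=
    ext_terms (thick_all fun i => thick_span R.H hR (R.proj i))
  have h0 : ForVarieties D (KunnethC R) 0 := fun X hX hd n =>
    known X hX (hd.trans (by exact_mod_cast Nat.zero_le 2)) n
  refine ⟨fun N f => two_spaces f, fun N f => dbl_hyper hD h h0 f,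
    fun N => varieties_dbl hD h h0 N, all_dbl hD h h0, fun f => ?_⟩
  exact (varieties_dbl hD h h0 2).1 known f

end Pool.Agent.Results.MP_a60482_ag.UnionsOfTwoAffineSpaces
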